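import Pool.Agent.Helper83.PT.St6

set_option autoImplicit false

/-! Project PT, module M2: the oblivious (catalytic) recursion adds the value of the gate (base B digits; ported
from helper72, project DC). -/

namespace Pool.Agent.Helper83.PT.N57

open Pool.Agent.Helper73.DC
open Finset
open scoped Classical

section run

variable {p : ℕ}

theorem runB_add (F : ℕ → RG p → RG p) (a n : ℕ) (r : RG p) :
    runB F (a + n) r = runB (fun y => F (a + y)) n (runB F a r) := by
  induction n with
  | zero => rfl
  | succ n ih =>
    change F (a + n) (runB F (a + n) r) = F (a + n) (runB (fun y => F (a + y)) n (runB F a r))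
    rw [ih]

theorem runB_blocks (F : ℕ → RG p → RG p) (q c : ℕ) (r : RG p) :
    runB F (c * q) r = runB (fun j => runB (fun y => F (j * q + y)) q) c r := by
  induction c with
  | zero =>
    rw [Nat.zero_mul]
    rfl
  | succ c ih =>
    rw [Nat.succ_mul, runB_add, ih]
    rfl

theorem runB_congr (F G : ℕ → RG p → RG p) (n : ℕ) (r : RG p) (h : ∀ y < n, F y = G y) :
    runB F n r = runB G n r := by
  induction n with
  | zero => rfl
  | succ n ih =>
    change F n (runB F n r) = G n (runB G n r)
    rw [h n (Nat.lt_succ_self n), ih (fun y hy => h y (by omega))]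

theorem runB_first (F : ℕ → RG p → RG p) (n : ℕ) (r : RG p) (hn : 0 < n)
    (h : ∀ y, 0 < y → y < n → ∀ r, F y r = r) : runB F n r = F 0 r := by
  induction n with
  | zero => omega
  | succ n ih =>
    rcases Nat.eq_zero_or_pos n with h0 | h0
    · subst h0
      rfl
    · change F n (runB F n r) = F 0 r
      rw [h n h0 (Nat.lt_succ_self n), ih h0 (fun y hy1 hy2 => h y hy1 (by omega))]

end run

theorem dl_congr (p B D a : ℕ) (x y : ℕ → ZMod p) (h : ∀ i < D, x i = y i) :
    dl p B D a x = dl p B D a y := by
  unfold dl
  apply Finset.prod_congr rfl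
  intro j hj
  have h1 : j / B < D := by
    apply Nat.div_lt_of_lt_mul
    rw [Nat.mul_comm]
    exact Finset.mem_range.1 hj
  rw [h (j / B) h1]

/-- effect of one round -/
def rnd {p : ℕ} (D o x y : ℕ) (om : ZMod p) (va vb : ℕ → ZMod p)
    (Φ : (ℕ → ZMod p) → (ℕ → ZMod p) → ℕ → ZMod p) (R : RG p) : RG p :=
  fun k i => if i < D then (if k = o then
    R o i + Φ (fun i => om * R x i + va i) (fun i => om * R y i + vb i) i
    else if k = x ∨ k = y then om * R k i else R k i) else R k i

theorem round_eff {p : ℕ} (D o x y : ℕ) (om : ZMod p) (va vb : ℕ → ZMod p)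
    (Φ : (ℕ → ZMod p) → (ℕ → ZMod p) → ℕ → ZMod p)
    (hΦ : ∀ X X' Y Y' : ℕ → ZMod p, (∀ i < D, X i = X' i) → (∀ i < D, Y i = Y' i) → Φ X Y = Φ X' Y')
    (hxo : x ≠ o) (hyo : y ≠ o) (hxy : x ≠ y) (R R1 R2 R3 R4 R5 R6 : RG p)
    (h1 : R1 = fun k i => if (k = x ∨ k = y) ∧ i < D then om * R k i else R k i)
    (h2 : R2 = addB D x va R1) (h3 : R3 = addB D y vb R2) (h4 : R4 = addB D o (Φ (R3 x) (R3 y)) R3)
    (h5 : R5 = addB D y (fun i => - vb i) R4) (h6 : R6 = addB D x (fun i => - va i) R5) :
    R6 = rnd D o x y om va vb Φ R := by
  have e3x : ∀ i < D, R3 x i = om * R x i + va i := by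
    intro i hi
    rw [h3, h2, h1]
    simp [addB, hi, hxy]
  have e3y : ∀ i < D, R3 y i = om * R y i + vb i := by
    intro i hi
    rw [h3, h2, h1]
    simp [addB, hi, hxy.symm]
  have eΦ : Φ (R3 x) (R3 y) = Φ (fun i => om * R x i + va i) (fun i => om * R y i + vb i) :=
    hΦ _ _ _ _ e3x e3y
  rw [eΦ] at h4
  funext k i
  rw [h6, h5, h4, h3, h2, h1]
  unfold rnd addB
  by_cases hi : i < D
  · by_cases hko : k = o
    · subst hko
      simp [hi, hxo.symm, hyo.symm]
    · by_cases hkx : k = x
      · subst hkx
        simp [hi, hko, hxy]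
      · by_cases hky : k = y
        · subst hky
          simp [hi, hko, hxy.symm]
        · simp [hi, hko, hkx, hky]
  · simp [hi]

/-- MODULE M2 -/
theorem mM2 : StM1 → StM2 := by
  intro hM1 p B D _ om w1 e m W Ga Tm hB hBp hL hom hgen hW1 hWb hWr d
  have hp1 : 0 < p - 1 := by omega
  obtain ⟨b, hb⟩ : ∃ b, b = 6 * (p - 1) := ⟨_, rfl⟩
  rw [← hb]
  have hb0 : 0 < b := by omega
  have hid : ∀ r : RG p, opB p B D om w1 e Ga ⟨0, 0, 0, 0⟩ r = r := by
    intro r
    simp [opB]
  induction d with
  | zero =>
    intro t o s r ht1 htT htd ho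
    have ht : t = 1 := by omega
    subst ht
    rw [pow_zero]
    change opB p B D om w1 e Ga (dcd b m 0 1 o s 0) r = _
    have h1 : dcd b m 0 1 o s 0 = ⟨1, 1, o, s⟩ := by simp [dcd]
    rw [h1, hW1]
    simp [opB]
  | succ d ih =>
    intro t o s r ht1 htT htd ho
    by_cases ht : t ≤ 1
    · have ht : t = 1 := by omega
      subst ht
      rw [runB_first _ _ _ (Nat.pos_of_ne_zero (by positivity)) (by
        intro y hy _ r
        have h1 : dcd b m (d + 1) 1 o s y = ⟨0, 0, 0, 0⟩ := by
          simp only [dcd, le_refl, if_true]
          rw [if_neg (by omega)]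
        rw [h1]
        exact hid r)]
      have h1 : dcd b m (d + 1) 1 o s 0 = ⟨1, 1, o, s⟩ := by simp [dcd]
      rw [h1, hW1]
      simp [opB]
    · obtain ⟨q, hq⟩ : ∃ q, q = b ^ d := ⟨_, rfl⟩
      have hq0 : 0 < q := by
        rw [hq]
        positivity
      rw [← hq] at ih
      obtain ⟨hm1, hm2, hWt⟩ := hWr t (by omega) htT
      have hn : b ^ (d + 1) = (p - 1) * 6 * q := by
        rw [pow_succ, ← hq, hb]
        ring
      have hdcd : ∀ c y, y < q → dcd b m (d + 1) t o s (c * q + y) =
          if c % 6 = 0 then (if y = 0 then ⟨2, t, o, s⟩ else ⟨0, 0, 0, 0⟩)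
          else if c % 6 = 1 then dcd b m d (t - 1) ((o + 1) % 3) 0 y
          else if c % 6 = 2 then dcd b m d (m t) ((o + 2) % 3) 0 y
          else if c % 6 = 3 then (if y = 0 then ⟨3, t, o, s⟩ else ⟨0, 0, 0, 0⟩)
          else if c % 6 = 4 then dcd b m d (m t) ((o + 2) % 3) 1 y
          else dcd b m d (t - 1) ((o + 1) % 3) 1 y := by
        intro c y hy
        have e1 : (c * q + y) / q = c := by
          rw [Nat.add_comm, Nat.add_mul_div_right _ _ hq0, Nat.div_eq_of_lt hy, Nat.zero_add]
        have e2 : (c * q + y) % q = y := by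
          rw [Nat.add_comm, Nat.add_mul_mod_self_right, Nat.mod_eq_of_lt hy]
        simp only [dcd, if_neg ht, ← hq, e1, e2]
      -- the six slots
      have s0 : ∀ c, c % 6 = 0 → ∀ R : RG p,
          runB (fun y => opB p B D om w1 e Ga (dcd b m (d + 1) t o s (c * q + y))) q R =
            sclB D o om R := by
        intro c hc R
        rw [runB_first _ _ _ hq0 (by
          intro y hy1 hy2 R
          rw [hdcd c y hy2, if_pos hc, if_neg (by omega)]
          exact hid R)]
        rw [hdcd c 0 hq0, if_pos hc, if_pos rfl]
        simp [opB]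
      have s3 : ∀ c, c % 6 = 3 → ∀ R : RG p,
          runB (fun y => opB p B D om w1 e Ga (dcd b m (d + 1) t o s (c * q + y))) q R =
            addB D o (fun i => - (sgn p s * ∑ a ∈ range (B ^ D), ∑ b ∈ range (B ^ D),
              dl p B D a (R ((o + 1) % 3)) * dl p B D b (R ((o + 2) % 3)) *
                (dg B (Ga (e t) a b) i : ZMod p))) R := by
        intro c hc R
        rw [runB_first _ _ _ hq0 (by
          intro y hy1 hy2 R
          rw [hdcd c y hy2, if_neg (by omega), if_neg (by omega), if_neg (by omega), if_pos hc,
            if_neg (by omega)]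
          exact hid R)]
        rw [hdcd c 0 hq0, if_neg (by omega), if_neg (by omega), if_neg (by omega), if_pos hc,
          if_pos rfl]
        simp [opB]
      have s1 : ∀ c, c % 6 = 1 → ∀ R : RG p,
          runB (fun y => opB p B D om w1 e Ga (dcd b m (d + 1) t o s (c * q + y))) q R =
            addB D ((o + 1) % 3) (fun i => (dg B (W (t - 1)) i : ZMod p)) R := by
        intro c hc R
        rw [runB_congr _ (fun y => opB p B D om w1 e Ga (dcd b m d (t - 1) ((o + 1) % 3) 0 y)) q R
          (by
            intro y hy
            rw [hdcd c y hy, if_neg (by omega), if_pos hc])]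
        rw [ih (t - 1) ((o + 1) % 3) 0 R (by omega) (by omega) (by omega) (by omega)]
        simp [sgn]
      have s2 : ∀ c, c % 6 = 2 → ∀ R : RG p,
          runB (fun y => opB p B D om w1 e Ga (dcd b m (d + 1) t o s (c * q + y))) q R =
            addB D ((o + 2) % 3) (fun i => (dg B (W (m t)) i : ZMod p)) R := by
        intro c hc R
        rw [runB_congr _ (fun y => opB p B D om w1 e Ga (dcd b m d (m t) ((o + 2) % 3) 0 y)) q R
          (by
            intro y hy
            rw [hdcd c y hy, if_neg (by omega), if_neg (by omega), if_pos hc])]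
        rw [ih (m t) ((o + 2) % 3) 0 R (by omega) (by omega) (by omega) (by omega)]
        simp [sgn]
      have s4 : ∀ c, c % 6 = 4 → ∀ R : RG p,
          runB (fun y => opB p B D om w1 e Ga (dcd b m (d + 1) t o s (c * q + y))) q R =
            addB D ((o + 2) % 3) (fun i => - (dg B (W (m t)) i : ZMod p)) R := by
        intro c hc R
        rw [runB_congr _ (fun y => opB p B D om w1 e Ga (dcd b m d (m t) ((o + 2) % 3) 1 y)) q R
          (by
            intro y hy
            rw [hdcd c y hy, if_neg (by omega), if_neg (by omega), if_neg (by omega),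
              if_neg (by omega), if_pos hc])]
        rw [ih (m t) ((o + 2) % 3) 1 R (by omega) (by omega) (by omega) (by omega)]
        simp [sgn]
      have s5 : ∀ c, c % 6 = 5 → ∀ R : RG p,
          runB (fun y => opB p B D om w1 e Ga (dcd b m (d + 1) t o s (c * q + y))) q R =
            addB D ((o + 1) % 3) (fun i => - (dg B (W (t - 1)) i : ZMod p)) R := by
        intro c hc R
        rw [runB_congr _ (fun y => opB p B D om w1 e Ga (dcd b m d (t - 1) ((o + 1) % 3) 1 y)) q R
          (by
            intro y hy
            rw [hdcd c y hy, if_neg (by omega), if_neg (by omega), if_neg (by omega),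
              if_neg (by omega), if_neg (by omega)])]
        rw [ih (t - 1) ((o + 1) % 3) 1 R (by omega) (by omega) (by omega) (by omega)]
        simp [sgn]
      -- one round
      let Φ : (ℕ → ZMod p) → (ℕ → ZMod p) → ℕ → ZMod p := fun X Y i =>
        - (sgn p s * ∑ a ∈ range (B ^ D), ∑ b ∈ range (B ^ D),
          dl p B D a X * dl p B D b Y * (dg B (Ga (e t) a b) i : ZMod p))
      have hΦ : ∀ X X' Y Y' : ℕ → ZMod p, (∀ i < D, X i = X' i) → (∀ i < D, Y i = Y' i) →
          Φ X Y = Φ X' Y' := by
        intro X X' Y Y' hX hY
        funext i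
        simp only [Φ]
        congr 2
        apply Finset.sum_congr rfl
        intro a _
        apply Finset.sum_congr rfl
        intro b _
        rw [dl_congr p B D a X X' hX, dl_congr p B D b Y Y' hY]
      let va : ℕ → ZMod p := fun i => (dg B (W (t - 1)) i : ZMod p)
      let vb : ℕ → ZMod p := fun i => (dg B (W (m t)) i : ZMod p)
      have hround : ∀ (j : ℕ) (R : RG p), runB (fun f => runB (fun y =>
          opB p B D om w1 e Ga (dcd b m (d + 1) t o s ((j * 6 + f) * q + y))) q) 6 R =
          rnd D o ((o + 1) % 3) ((o + 2) % 3) om va vb Φ R := by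
        intro j R
        simp only [runB]
        refine round_eff D o ((o + 1) % 3) ((o + 2) % 3) om va vb Φ hΦ (by omega) (by omega)
          (by omega) R _ _ _ _ _ _ (s0 (j * 6 + 0) (by omega) R) (s1 (j * 6 + 1) (by omega) _)
          (s2 (j * 6 + 2) (by omega) _) (s3 (j * 6 + 3) (by omega) _)
          (s4 (j * 6 + 4) (by omega) _) (s5 (j * 6 + 5) (by omega) _)
      rw [hn, runB_blocks _ q, runB_blocks _ 6]
      rw [runB_congr _ (fun _ => rnd D o ((o + 1) % 3) ((o + 2) % 3) om va vb Φ) (p - 1) r
        (fun j _ => funext fun R => hround j R)]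
      -- all rounds
      let S : ℕ → RG p := fun j k i => if i < D then (if k = o then r o i +
          ∑ j' ∈ range j, Φ (fun i => om ^ (j' + 1) * r ((o + 1) % 3) i + va i)
            (fun i => om ^ (j' + 1) * r ((o + 2) % 3) i + vb i) i
        else if k = (o + 1) % 3 ∨ k = (o + 2) % 3 then om ^ j * r k i else r k i) else r k i
      have hS : ∀ j, runB (fun _ => rnd D o ((o + 1) % 3) ((o + 2) % 3) om va vb Φ) j r = S j := by
        intro j
        induction j with
        | zero =>
          funext k i
          change r k i = S 0 k i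
          simp only [S, Finset.range_zero, Finset.sum_empty, add_zero, pow_zero, one_mul]
          by_cases hi : i < D
          · by_cases hk : k = o
            · simp [hi, hk]
            · simp [hi, hk]
          · simp [hi]
        | succ j ihj =>
          change rnd D o ((o + 1) % 3) ((o + 2) % 3) om va vb Φ
            (runB (fun _ => rnd D o ((o + 1) % 3) ((o + 2) % 3) om va vb Φ) j r) = S (j + 1)
          rw [ihj]
          have ho1 : (o + 1) % 3 ≠ o := by omega
          have ho2 : (o + 2) % 3 ≠ o := by omega
          have e1 : Φ (fun i => om * S j ((o + 1) % 3) i + va i)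
              (fun i => om * S j ((o + 2) % 3) i + vb i) =
              Φ (fun i => om ^ (j + 1) * r ((o + 1) % 3) i + va i)
                (fun i => om ^ (j + 1) * r ((o + 2) % 3) i + vb i) := by
            apply hΦ
            · intro i hi
              simp only [S, hi, if_true, ho1, if_false, true_or]
              ring
            · intro i hi
              simp only [S, hi, if_true, ho2, if_false, or_true]
              ring
          funext k i
          unfold rnd
          rw [e1]
          by_cases hi : i < D
          · by_cases hk : k = o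
            · simp only [hi, hk, if_true, S, Finset.sum_range_succ]
              ring
            · by_cases hk2 : k = (o + 1) % 3 ∨ k = (o + 2) % 3
              · simp only [hi, hk, hk2, if_true, if_false, S]
                ring
              · simp only [hi, hk, hk2, if_true, if_false, S]
          · simp only [hi, if_false, S]
      rw [hS]
      have hpow : om ^ (p - 1) = 1 := ZMod.pow_card_sub_one_eq_one hom
      funext k i
      by_cases hi : i < D
      · by_cases hk : k = o
        · subst hk
          simp only [S, hi, if_true, addB, and_self]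
          congr 1
          have h1 := hM1 p B D om (fun a b => (dg B (Ga (e t) a b) i : ZMod p)) (r ((k + 1) % 3))
            (r ((k + 2) % 3)) (W (t - 1)) (W (m t)) hB hBp hL hom hgen (hWb (t - 1) (by omega) (by omega))
            (hWb (m t) (by omega) (by omega))
          simp only [Φ, Finset.sum_neg_distrib, ← Finset.mul_sum]
          rw [h1, ← hWt]
          ring
        · by_cases hk2 : k = (o + 1) % 3 ∨ k = (o + 2) % 3
          · simp only [S, hi, hk, hk2, if_true, if_false, addB, hpow, one_mul, false_and]
          · simp only [S, hi, hk, hk2, if_true, if_false, addB, false_and]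
      · simp only [S, hi, if_false, addB, and_false]

end Pool.Agent.Helper83.PT.N57
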